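import Mathlib
import Pool.Agent.H316.EM.Stm2

/-!
# MP_e2f787 (S03350): task MK
-/

set_option autoImplicit false

namespace Pool.Agent.H268

open Pool.Agent.H316.EM

section

variable (W : Type) [AddCommGroup W]

/-- the elements killed by two -/
def tor2 : AddSubgroup W where
  carrier := {w | w + w = 0}
  zero_mem' := add_zero 0
  add_mem' := by
    intro a b ha hb
    show a + b + (a + b) = 0
    rw [add_add_add_comm, ha, hb, add_zero]
  neg_mem' := by
    intro a ha
    show -a + -a = 0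
    rw [← neg_add, ha, neg_zero]

theorem mem_tor2 (w : W) : w ∈ tor2 W ↔ w + w = 0 := Iff.rfl

instance tor2Mod : Module (ZMod 2) (tor2 W) :=
  AddCommGroup.zmodModule (n := 2) (fun x => by
    rw [two_nsmul]
    exact Subtype.ext x.2)

theorem map_tor2 (e : W ≃ₗ[ℤ] W) {w : W} (h : w ∈ tor2 W) : e w ∈ tor2 W := by
  rw [mem_tor2] at h ⊢
  rw [← map_add, h, map_zero]

/-- restriction of an automorphism -/
def res1 (e : W ≃ₗ[ℤ] W) : Au (tor2 W) where
  toFun v := ⟨e v, map_tor2 W e v.2⟩
  invFun v := ⟨e.symm v, map_tor2 W e.symm v.2⟩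
  left_inv v := Subtype.ext (e.symm_apply_apply _)
  right_inv v := Subtype.ext (e.apply_symm_apply _)
  map_add' x y := Subtype.ext (map_add e _ _)
  map_smul' c x := by
    let f : tor2 W →+ tor2 W :=
      { toFun := fun v => ⟨e v, map_tor2 W e v.2⟩
        map_zero' := Subtype.ext (map_zero e)
        map_add' := fun x y => Subtype.ext (map_add e _ _) }
    exact ZMod.map_smul f c x

/-- restriction as a homomorphism -/
def res : (W ≃ₗ[ℤ] W) →* Au (tor2 W) where
  toFun := res1 W
  map_one' := by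
    ext v
    rfl
  map_mul' a b := by
    ext v
    rfl

theorem res_apply (e : W ≃ₗ[ℤ] W) (v : tor2 W) : ((res W e v : tor2 W) : W) = e v := rfl

end

theorem KK_two (a : KK) : a + a = 0 := by
  have h : ((2 : ℕ) : ZMod 2) • a = 0 := by
    have : ((2 : ℕ) : ZMod 2) = 0 := by decide
    rw [this, zero_smul]
  rw [Nat.cast_smul_eq_nsmul, two_nsmul] at h
  exact h

/-- the finite generation of the elements killed by two -/
theorem mk_fg (W Λ : Type) [AddCommGroup W] [CommGroup Λ] [Group.FG Λ] (ρ : Λ →* (W ≃ₗ[ℤ] W))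
    (hS : ∃ S : Finset W, AddSubgroup.closure {x : W | ∃ l, ∃ s ∈ S, x = ρ l s} = ⊤) :
    ∃ S : Finset (tor2 W), Submodule.span (ZMod 2)
      {x : tor2 W | ∃ l ∈ ((res W).comp ρ).range, ∃ s ∈ S, x = l s} = ⊤ := by
  classical
  obtain ⟨S, hS⟩ := hS
  let toE : (W ≃ₗ[ℤ] W) →* Module.End ℤ W :=
    { toFun := fun e => e.toLinearMap
      map_one' := rfl
      map_mul' := fun _ _ => rfl }
  let φ : MonoidAlgebra ℤ Λ →ₐ[ℤ] Module.End ℤ W := MonoidAlgebra.lift ℤ (Module.End ℤ W) Λ (toE.comp ρ)
  let : Module (MonoidAlgebra ℤ Λ) W := Module.compHom W φ.toRingHom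
  have hsm : ∀ (l : Λ) (n : ℤ) (w : W), (MonoidAlgebra.single l n : MonoidAlgebra ℤ Λ) • w = n • ρ l w := by
    intro l n w
    show φ (MonoidAlgebra.single l n) w = n • ρ l w
    have : φ (MonoidAlgebra.single l n) = n • (toE.comp ρ) l := MonoidAlgebra.lift_single _ _ _
    rw [this]
    rfl
  have : Monoid.FG Λ := Group.fg_iff_monoid_fg.1 inferInstance
  have : Algebra.FiniteType ℤ (MonoidAlgebra ℤ Λ) := inferInstance
  have : IsNoetherianRing (MonoidAlgebra ℤ Λ) := Algebra.FiniteType.isNoetherianRing ℤ _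
  have : Module.Finite (MonoidAlgebra ℤ Λ) W := by
    refine ⟨⟨S, ?_⟩⟩
    rw [eq_top_iff]
    intro w _
    have hw : w ∈ AddSubgroup.closure {x : W | ∃ l, ∃ s ∈ S, x = ρ l s} := by
      rw [hS]; trivial
    induction hw using AddSubgroup.closure_induction with
    | mem x hx =>
      obtain ⟨l, s, hs, rfl⟩ := hx
      have := (Submodule.span (MonoidAlgebra ℤ Λ) (S : Set W)).smul_mem (MonoidAlgebra.single l 1)
        (Submodule.subset_span hs)
      rw [hsm, one_smul] at this
      exact this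
    | zero => exact Submodule.zero_mem _
    | add x y _ _ hx hy => exact Submodule.add_mem _ (hx trivial) (hy trivial)
    | neg x _ hx => exact Submodule.neg_mem _ (hx trivial)
  have : IsNoetherian (MonoidAlgebra ℤ Λ) W := inferInstance
  let V' : Submodule (MonoidAlgebra ℤ Λ) W :=
    { carrier := {w | w + w = 0}
      zero_mem' := add_zero 0
      add_mem' := by
        intro a b ha hb
        show a + b + (a + b) = 0
        rw [add_add_add_comm, ha, hb, add_zero]
      smul_mem' := by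
        intro c w hw
        show c • w + c • w = 0
        rw [← smul_add, hw, smul_zero] }
  obtain ⟨T, hT⟩ := IsNoetherian.noetherian V'
  have hTV : ∀ s ∈ T, s ∈ tor2 W := by
    intro s hs
    have : s ∈ V' := by
      rw [← hT]; exact Submodule.subset_span hs
    exact this
  refine ⟨T.attach.image (fun s => (⟨s.1, hTV s.1 s.2⟩ : tor2 W)), ?_⟩
  set N := Submodule.span (ZMod 2) {x : tor2 W | ∃ l ∈ ((res W).comp ρ).range,
    ∃ s ∈ T.attach.image (fun s => (⟨s.1, hTV s.1 s.2⟩ : tor2 W)), x = l s} with hN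
  have hstab : ∀ (l : Λ) (v : tor2 W), v ∈ N → res W (ρ l) v ∈ N := by
    intro l v hv
    induction hv using Submodule.span_induction with
    | mem x hx =>
      obtain ⟨m, ⟨m', rfl⟩, s, hs, rfl⟩ := hx
      refine Submodule.subset_span ⟨((res W).comp ρ) (l * m'), ⟨l * m', rfl⟩, s, hs, ?_⟩
      rw [map_mul]
      rfl
    | zero => rw [map_zero]; exact N.zero_mem
    | add x y _ _ hx hy => rw [map_add]; exact N.add_mem hx hy
    | smul c x _ hx => rw [map_smul]; exact N.smul_mem c hx
  have hz : ∀ (n : ℤ) (v : tor2 W), v ∈ N → n • v ∈ N := fun n v hv => zsmul_mem hv n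
  have key : ∀ w : W, w ∈ V' → ∃ h : w ∈ tor2 W, (⟨w, h⟩ : tor2 W) ∈ N := by
    intro w hw
    rw [← hT] at hw
    induction hw using Submodule.span_induction with
    | mem x hx =>
      refine ⟨hTV x hx, Submodule.subset_span ⟨1, Subgroup.one_mem _, ⟨x, hTV x hx⟩, ?_, rfl⟩⟩
      rw [Finset.mem_image]
      exact ⟨⟨x, hx⟩, Finset.mem_attach _ _, rfl⟩
    | zero => exact ⟨(tor2 W).zero_mem, N.zero_mem⟩
    | add x y _ _ hx hy =>
      obtain ⟨h1, h1'⟩ := hx
      obtain ⟨h2, h2'⟩ := hy
      exact ⟨(tor2 W).add_mem h1 h2, N.add_mem h1' h2'⟩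
    | smul c x _ hx =>
      obtain ⟨h1, h1'⟩ := hx
      induction c using MonoidAlgebra.induction_linear with
      | zero =>
        rw [zero_smul]
        exact ⟨(tor2 W).zero_mem, N.zero_mem⟩
      | add f g hf hg =>
        rw [add_smul]
        obtain ⟨h3, h3'⟩ := hf
        obtain ⟨h4, h4'⟩ := hg
        exact ⟨(tor2 W).add_mem h3 h4, N.add_mem h3' h4'⟩
      | single l n =>
        rw [hsm]
        exact ⟨(tor2 W).zsmul_mem (map_tor2 W (ρ l) h1) n, hz n _ (hstab l _ h1')⟩
  rw [eq_top_iff]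
  rintro v -
  obtain ⟨_, h⟩ := key v.1 v.2
  exact h

theorem em_mk : S_MK := by
  intro W Λ _ _ _ ρ β t tβ Lβ Lt Lt' hS A₀ α A₀le A₀fin A₀β A₀t αadd αβ αt hinf
  classical
  have α0 : α 0 = 0 := by
    have := αadd 0 A₀.zero_mem 0 A₀.zero_mem
    rw [add_zero] at this
    exact left_eq_add.1 this
  have hα : ∀ a ∈ A₀, α a ∈ tor2 W := by
    intro a ha
    rw [mem_tor2, ← αadd a ha a ha, KK_two, α0]
  refine ⟨tor2 W, inferInstance, inferInstance, ⟨?_⟩⟩
  exact
  { L := ((res W).comp ρ).range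
    Lfg := (Group.fg_iff_subgroup_fg _).1 inferInstance
    Lcomm := by
      rintro x ⟨a, rfl⟩ y ⟨b, rfl⟩
      rw [← map_mul, ← map_mul, mul_comm]
    β := (res W).comp β
    t := res W t
    tβ := by
      intro b
      rw [pow_one, MonoidHom.comp_apply, MonoidHom.comp_apply, ← tβ b]
      simp only [map_mul, map_inv]
    Lβ := by
      rintro b l ⟨a, rfl⟩
      obtain ⟨l', hl'⟩ := Lβ b a
      refine ⟨l', ?_⟩
      rw [MonoidHom.comp_apply, ← hl']
      simp only [map_mul, map_inv, MonoidHom.comp_apply]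
    Lt := by
      intro l
      constructor
      · rintro ⟨a, rfl⟩
        obtain ⟨l', hl'⟩ := Lt a
        refine ⟨l', ?_⟩
        rw [MonoidHom.comp_apply, ← hl']
        simp only [map_mul, map_inv, MonoidHom.comp_apply]
      · rintro ⟨a, ha⟩
        obtain ⟨l', hl'⟩ := Lt' a
        refine ⟨l', ?_⟩
        rw [MonoidHom.comp_apply, ← hl']
        simp only [map_mul, map_inv]
        rw [MonoidHom.comp_apply] at ha
        rw [ha]
        group
    fg := mk_fg W Λ ρ hS
    A₀ := A₀
    A₀le := A₀le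
    A₀fin := A₀fin
    A₀β := A₀β
    A₀t := by
      intro a
      rw [pow_one]
      exact A₀t a
    α := fun a => if h : a ∈ A₀ then ⟨α a, hα a h⟩ else 0
    αadd := by
      intro a ha a' ha'
      rw [dif_pos ha, dif_pos ha', dif_pos (A₀.add_mem ha ha')]
      exact Subtype.ext (αadd a ha a' ha')
    αβ := by
      intro b a ha
      rw [dif_pos ha, dif_pos (A₀β b a ha)]
      exact Subtype.ext (αβ b a ha)
    αt := by
      intro a ha
      have h1 : (tA ^ 1) a ∈ A₀ := by
        rw [pow_one]; exact (A₀t a).1 ha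
      rw [dif_pos ha, dif_pos h1]
      apply Subtype.ext
      show α ((tA ^ 1) a) = t (α a)
      rw [pow_one]
      exact αt a ha
    inf := by
      intro hfin
      apply hinf
      refine (hfin.image (Subtype.val : tor2 W → W)).subset ?_
      rintro _ ⟨a, ha, rfl⟩
      refine ⟨⟨α a, hα a ha⟩, ⟨a, ha, ?_⟩, rfl⟩
      exact dif_pos ha }

end Pool.Agent.H268
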